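import Mathlib
import Pool.Agent.H.MP_fb02e9_lc.Core
import Pool.Agent.H.MP_cc69c8_lc.A

set_option autoImplicit false

namespace Pool.Agent.H.MP_20ee74_lc

open Set Filter Cardinal Topology Function

def Sm (J : Type) : Prop := ∀ M : J → Set ℝ, (∀ j, IsMeagre (M j)) → (⋃ j, M j) ≠ Set.univ

def dI (n : ℕ) (z : ℤ) : Set ℝ := {x | (z : ℝ) < 2 ^ n * x ∧ 2 ^ n * x < z + 1}

theorem dI_sub (n : ℕ) (z b : ℤ) (h0 : 0 ≤ b) (h1 : b ≤ 1) : dI (n + 1) (2 * z + b) ⊆ dI n z := by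
  rintro x ⟨a1, a2⟩
  have h0 : (0 : ℝ) ≤ b := by exact_mod_cast h0
  have h1 : (b : ℝ) ≤ 1 := by exact_mod_cast h1
  push_cast at a1 a2
  rw [pow_succ] at a1 a2
  constructor <;> linarith

theorem dI_open (n : ℕ) (z : ℤ) : IsOpen (dI n z) :=
  (isOpen_lt continuous_const (continuous_const.mul continuous_id)).inter
    (isOpen_lt (continuous_const.mul continuous_id) continuous_const)

theorem dI_ne (n : ℕ) (z : ℤ) : (dI n z).Nonempty :=
  ⟨(z + 1 / 2) / 2 ^ n, by constructor <;> rw [mul_div_cancel₀ _ (by positivity)] <;> linarith⟩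

theorem dI_base {O : Set ℝ} (h1 : IsOpen O) (h2 : O.Nonempty) : ∃ n z, dI n z ⊆ O := by
  obtain ⟨x, hx⟩ := h2
  obtain ⟨ε, e1, e2⟩ := Metric.isOpen_iff.1 h1 x hx
  obtain ⟨n, hn⟩ := pow_unbounded_of_one_lt (1 / ε) (one_lt_two (α := ℝ))
  refine ⟨n, ⌊2 ^ n * x⌋, fun y ⟨y1, y2⟩ => e2 ?_⟩
  have a1 := Int.floor_le (2 ^ n * x)
  have a2 := Int.lt_floor_add_one (2 ^ n * x)
  rw [div_lt_iff₀ e1] at hn
  have : (0 : ℝ) < 2 ^ n := by positivity
  rw [Metric.mem_ball, Real.dist_eq, abs_lt]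
  constructor <;> nlinarith

theorem fl_half (n : ℕ) (x : ℝ) : ⌊2 ^ (n + 1) * x⌋ / 2 = ⌊2 ^ n * x⌋ := by
  have := Int.floor_div_natCast (2 ^ (n + 1) * x) 2
  rw [show (2 : ℝ) ^ (n + 1) * x / (2 : ℕ) = 2 ^ n * x by push_cast; ring] at this
  exact this.symm

theorem coh {J S T : Type} (h : Sm J) [Countable T] (t0 : T) (s0 : S) (nx : S → T → S)
    (h0 : ∀ s, nx s t0 = s) (f : J → S → T) : ∃ (s : ℕ → S) (a : ℕ → T), s 0 = s0 ∧
      (∀ n, s (n + 1) = nx (s n) (a n)) ∧ ∀ j, ∃ᶠ n in atTop, a n = f j (s n) := by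
  have : Nonempty T := ⟨t0⟩
  obtain ⟨d, hd⟩ := exists_surjective_nat T
  let P : ℕ → ℤ → S × ℕ := fun n => Nat.rec (fun _ => (s0, 0)) (fun _ p z =>
    if z % 2 = 0 then ((p (z / 2)).1, (p (z / 2)).2 + 1) else (nx (p (z / 2)).1 (d (p (z / 2)).2), 0)) n
  have hP : ∀ n z, P (n + 1) z = if z % 2 = 0 then ((P n (z / 2)).1, (P n (z / 2)).2 + 1) else
      (nx (P n (z / 2)).1 (d (P n (z / 2)).2), 0) := fun _ _ => rfl
  have hz : ∀ n z k, dI (n + k) (z * 2 ^ k) ⊆ dI n z ∧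
      P (n + k) (z * 2 ^ k) = ((P n z).1, (P n z).2 + k) := fun n z k => by
    induction k with
    | zero => simp
    | succ k ih =>
      rw [← add_assoc, pow_succ, ← mul_assoc, hP, if_pos (by omega), Int.mul_ediv_cancel _ two_ne_zero,
        ih.2]
      refine ⟨subset_trans ?_ ih.1, rfl⟩
      simpa [mul_comm] using dI_sub (n + k) (z * 2 ^ k) 0 le_rfl zero_le_one
  let W : J → ℕ → Set ℝ := fun j m => ⋃ n, ⋃ z, ⋃ (_ : m ≤ n ∧ d (P n z).2 = f j (P n z).1),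
    dI (n + 1) (2 * z + 1)
  have hW : ∀ j m, W j m ∈ residual ℝ := fun j m => by
    refine residual_of_dense_open (isOpen_iUnion fun _ => isOpen_iUnion fun _ => isOpen_iUnion
      fun _ => dI_open _ _) (dense_iff_inter_open.2 fun O o1 o2 => ?_)
    obtain ⟨n, z, h1⟩ := dI_base o1 o2
    obtain ⟨c, hc⟩ := hd (f j (P (n + m + 1) (2 * (z * 2 ^ m) + 1)).1)
    have h2 : (P (n + m + 1) (2 * (z * 2 ^ m) + 1)).2 = 0 := by rw [hP, if_neg (by omega)]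
    obtain ⟨x, hx⟩ := dI_ne (n + m + 1 + c + 1) (2 * ((2 * (z * 2 ^ m) + 1) * 2 ^ c) + 1)
    refine ⟨x, h1 ((hz n z m).1 (dI_sub _ _ 1 zero_le_one le_rfl ((hz _ _ c).1
      (dI_sub _ _ 1 zero_le_one le_rfl hx)))), mem_iUnion₂.2 ⟨_, _, mem_iUnion.2 ⟨⟨by omega, ?_⟩, hx⟩⟩⟩
    rw [(hz _ _ c).2, h2, zero_add, hc]
  obtain ⟨x, hx⟩ := (ne_univ_iff_exists_notMem _).1 (h (fun j => ⋃ m, (W j m)ᶜ) fun j =>
    isMeagre_iUnion fun m => by rw [IsMeagre, compl_compl]; exact hW j m)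
  refine ⟨fun n => (P n ⌊2 ^ n * x⌋).1, fun n => if ⌊2 ^ (n + 1) * x⌋ % 2 = 0 then t0 else
    d (P n ⌊2 ^ n * x⌋).2, rfl, fun n => ?_, fun j => frequently_atTop.2 fun m => ?_⟩
  · beta_reduce
    rw [hP, fl_half]
    split_ifs
    exacts [(h0 _).symm, rfl]
  · have : x ∈ W j m := by_contra fun h => hx (mem_iUnion₂.2 ⟨j, m, h⟩)
    simp only [W, mem_iUnion] at this
    obtain ⟨n, z, ⟨h1, h2⟩, h3⟩ := this
    have h4 : ⌊2 ^ (n + 1) * x⌋ = 2 * z + 1 := Int.floor_eq_iff.2 ⟨h3.1.le, h3.2⟩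
    have h5 : ⌊2 ^ n * x⌋ = z := by rw [← fl_half, h4]; omega
    exact ⟨n, h1, by beta_reduce; rw [h4, h5, if_neg (by omega), h2]⟩

theorem unb {s : ℕ → ℕ} (hm : Monotone s) (hf : ∃ᶠ n in atTop, s n < s (n + 1)) :
    Tendsto s atTop atTop := by
  refine tendsto_atTop_atTop_of_monotone hm fun b => ?_
  induction b with
  | zero => exact ⟨0, Nat.zero_le _⟩
  | succ b ih =>
    obtain ⟨n, hn⟩ := ih
    obtain ⟨m, h1, h2⟩ := frequently_atTop.1 hf n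
    exact ⟨m + 1, (hn.trans (hm h1)).trans_lt h2⟩

theorem sm_nd {J : Type} (h : Sm J) (F : J → ℕ → ℕ) :
    ∃ g : ℕ → ℕ, ∀ j, ∃ᶠ k in atTop, F j k < g k := by
  obtain ⟨s, a, -, h1, h2⟩ := coh h 0 0 (fun s t : ℕ => s + t) (fun _ => rfl) fun j s => F j s + 1
  have hm : Monotone s := monotone_nat_of_le_succ fun n => by rw [h1]; omega
  refine ⟨fun k => sInf {v | v ∈ range s ∧ k < v}, fun j => frequently_atTop.2 fun K => ?_⟩
  obtain ⟨n, n1, n2⟩ := ((h2 j).and_eventually ((unb hm ((h2 j).mono fun n hn => by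
    rw [h1, hn]; omega)).eventually_ge_atTop K)).exists
  have h3 : s n + F j (s n) < s (n + 1) := by rw [h1, n1]; omega
  obtain ⟨⟨m, m1⟩, m2⟩ := Nat.sInf_mem (s := {v | v ∈ range s ∧ s n < v}) ⟨_, ⟨n + 1, rfl⟩, by omega⟩
  refine ⟨s n, n2, ?_⟩
  beta_reduce
  rw [← m1] at m2 ⊢
  have := hm (show n + 1 ≤ m from hm.reflect_lt m2)
  omega

theorem fam {J : Type} [Infinite J] (h : Sm J) (G : J → Set ℕ) (hG : ∀ j, (G j).Infinite) :
    ∃ e : (ℕ → ℕ) → Set ℕ, (∀ j (s : Finset (ℕ → ℕ)), {n | n ∈ G j ∧ ∀ t ∈ s, n ∈ e t}.Infinite) ∧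
      ∀ t, {n | ∀ m, n ≤ m → m ≤ t n → m ∉ e t}.Infinite := by
  classical
  obtain ⟨T, hT, hmin⟩ := MP_cc69c8_lc.ex_dom
  have hJ : #J < #T := not_le.1 fun hle => by
    have : Nonempty T := (hT fun _ => 0).elim fun g hg => ⟨⟨g, hg.1⟩⟩
    obtain ⟨φ⟩ := hle
    obtain ⟨g, hg⟩ := sm_nd h fun j => (invFun φ j).1
    obtain ⟨t, t1, t2⟩ := hT g
    obtain ⟨k, hk⟩ := (hg (φ ⟨t, t1⟩)).exists
    rw [leftInverse_invFun φ.injective] at hk
    exact hk.not_ge (t2 k)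
  have hinf : ℵ₀ < #T := (aleph0_le_mk J).trans_lt hJ
  obtain ⟨e⟩ : Nonempty ((#T).ord.ToType ≃ T) := Cardinal.eq.mp (mk_ord_toType _)
  have ex : ∀ (w : (#T).ord.ToType) (r : Iio w → Set ℕ), ∃ D : Set ℕ,
      (∀ j (s : Finset (Iio w)), {n | n ∈ G j ∧ ∀ i ∈ s, n ∈ r i}.Infinite →
        ({n | n ∈ G j ∧ ∀ i ∈ s, n ∈ r i} ∩ D).Infinite) ∧
      {n | ∀ m, n ≤ m → m ≤ (e w).1 n → m ∉ D}.Infinite := by
    intro w r
    obtain ⟨D, h1, h2⟩ := MP_fb02e9_lc.step {F | F.Infinite ∧ ∃ p : J × Finset (Iio w),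
      {n | n ∈ G p.1 ∧ ∀ i ∈ p.2, n ∈ r i} = F} (fun F hF => hF.1) (by
        intro s
        have hlt : #(range s) < #T := by
          refine lt_of_le_of_lt mk_range_le (lt_of_le_of_lt (mk_le_mk_of_subset
            (t := range fun p : J × Finset (Iio w) => {n | n ∈ G p.1 ∧ ∀ i ∈ p.2, n ∈ r i})
            fun F hF => hF.2) (lt_of_le_of_lt mk_range_le ?_))
          rw [mk_prod, lift_id, lift_id]
          refine mul_lt_of_lt hinf.le hJ ?_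
          rcases finite_or_infinite (Iio w) with h | h
          · exact (lt_aleph0_of_finite _).trans hinf
          · rw [mk_finset_of_infinite]
            simpa using mk_Iio_lt w (by simp)
        by_contra h3
        push Not at h3
        refine absurd (hmin (range s) fun g => ?_) (not_le.mpr hlt)
        obtain ⟨F, hF⟩ := h3 g
        exact ⟨s F, mem_range_self F, by simpa using hF⟩) (e w).1
    exact ⟨D, fun j s hs => h1 _ ⟨hs, (j, s), rfl⟩, h2⟩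
  choose Φ hG1 hG2 using ex
  obtain ⟨D, hD⟩ : ∃ D : (#T).ord.ToType → Set ℕ, ∀ w, D w = Φ w fun i => D i :=
    ⟨wellFounded_lt.fix fun α r => Φ α fun β => r β β.2, fun α => wellFounded_lt.fix_eq _ α⟩
  have k : ∀ j (s : Finset _), {n | n ∈ G j ∧ ∀ i ∈ s, n ∈ D i}.Infinite := fun j s => by
    induction s using Finset.induction_on_max with
    | empty => simpa using hG j
    | insert a s ha ih =>
      have h1 : {n | n ∈ G j ∧ ∀ i ∈ s.subtype (· ∈ Iio a), n ∈ D i} =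
          {n | n ∈ G j ∧ ∀ i ∈ s, n ∈ D i} := by
        ext n
        simp only [mem_ofPred_eq, Finset.mem_subtype]
        exact and_congr_right fun _ => ⟨fun h i hi => h ⟨i, ha i hi⟩ hi, fun h i hi => h i hi⟩
      have h2 := hG1 a (fun i => D i) j (s.subtype (· ∈ Iio a)) (h1 ▸ ih)
      rw [h1, ← hD] at h2
      exact h2.mono fun n hn => ⟨hn.1.1, Finset.forall_mem_insert _ _ _ |>.2 ⟨hn.2, hn.1.2⟩⟩
  choose g g1 g2 using hT
  refine ⟨fun t => D (e.symm ⟨g t, g1 t⟩), fun j s => (k j (s.image fun t =>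
    e.symm ⟨g t, g1 t⟩)).mono fun n hn => ⟨hn.1, fun t ht => hn.2 _ (Finset.mem_image_of_mem _ ht)⟩,
    fun t => ?_⟩
  have h2 := hG2 (e.symm ⟨g t, g1 t⟩) fun i => D i
  rw [← hD, e.apply_symm_apply] at h2
  refine h2.mono fun n hn m h3 h4 => ?_
  exact hn m h3 (h4.trans (g2 t n))

end Pool.Agent.H.MP_20ee74_lc
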