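import Mathlib
import Pool.Agent.H.MP_20ee74_lc.A

set_option autoImplicit false

namespace Pool.Agent.H.MP_20ee74_lc

open Set Filter Cardinal Topology Function Metric

variable {X : Type}

theorem lim [MetricSpace X] [CompleteSpace X] (V : ℕ → Set X) (h1 : ∀ n, (V n).Nonempty)
    (h2 : ∀ n, V (n + 1) ⊆ V n) (h3 : ∃ᶠ n : ℕ in atTop, closure (V (n + 1)) ⊆ V n ∧
      ∃ c, V (n + 1) ⊆ ball c (1 / ((n : ℝ) + 1))) : ∃ x, ∀ n, x ∈ V n := by
  choose z hz using h1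
  have ha : Antitone V := antitone_nat_of_succ_le h2
  obtain ⟨x, hx⟩ := cauchySeq_tendsto_of_complete (u := z) (Metric.cauchySeq_iff.2 fun ε hε => by
    obtain ⟨N, ⟨-, c, hc⟩, hN⟩ := (h3.and_eventually ((tendsto_one_div_add_atTop_nhds_zero_nat
      (𝕜 := ℝ)).eventually (gt_mem_nhds (half_pos hε)))).exists
    refine ⟨N + 1, fun m hm n hn => ?_⟩
    have a1 := mem_ball.1 (hc (ha hm (hz m)))
    have a2 := mem_ball.1 (hc (ha hn (hz n)))
    linarith [dist_triangle_right (z m) (z n) c])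
  refine ⟨x, fun n => ?_⟩
  obtain ⟨N, h4, h5, -⟩ := frequently_atTop.1 h3 n
  exact ha h4 (h5 (mem_closure_of_tendsto hx ((eventually_ge_atTop (N + 1)).mono
    fun m hm => ha hm (hz m))))

theorem good [TopologicalSpace X] {B : ℕ → Set X} (b1 : ∀ u, IsOpen (B u))
    (b2 : ∀ u, (B u).Nonempty) (b3 : ∀ O, IsOpen O → O.Nonempty → ∃ u, B u ⊆ O) {Y : Type}
    [Finite Y] (s0 : Y → ℕ) {n : ℕ} {W : Set (Fin n → X)} (w1 : IsOpen W) (w2 : Dense W) :
    ∃ σ : Y → ℕ, (∀ y, B (σ y) ⊆ B (s0 y)) ∧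
      ∀ p : Fin n → Y, Injective p → ∀ x : Fin n → X, (∀ k, x k ∈ B (σ (p k))) → x ∈ W := by
  classical
  suffices h : ∀ S : Set (Fin n → Y), S.Finite → ∃ σ : Y → ℕ, (∀ y, B (σ y) ⊆ B (s0 y)) ∧
      ∀ p ∈ S, Injective p → ∀ x : Fin n → X, (∀ k, x k ∈ B (σ (p k))) → x ∈ W from
    (h _ finite_univ).imp fun σ h => ⟨h.1, fun p => h.2 p trivial⟩
  intro S hS
  induction S, hS using Finite.induction_on with
  | empty => exact ⟨s0, fun _ => Subset.rfl, fun _ h => h.elim⟩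
  | @insert p S _ _ ih =>
    obtain ⟨σ, s1, s2⟩ := ih
    by_cases hp : Injective p
    swap
    · exact ⟨σ, s1, forall_mem_insert.2 ⟨fun h => (hp h).elim, s2⟩⟩
    obtain ⟨x, x1, x2⟩ := w2.inter_open_nonempty _ (isOpen_set_pi finite_univ fun k _ =>
      b1 (σ (p k))) (univ_pi_nonempty_iff.2 fun k => b2 _)
    obtain ⟨O, o1, o2⟩ := isOpen_pi_iff'.1 w1 x x2
    choose v hv using fun k => b3 _ ((o1 k).1.inter (b1 (σ (p k)))) ⟨x k, (o1 k).2, x1 k trivial⟩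
    have h : ∀ y, B (extend p v σ y) ⊆ B (σ y) := fun y => by
      by_cases hy : ∃ k, p k = y
      · obtain ⟨k, rfl⟩ := hy
        rw [hp.extend_apply]
        exact (hv k).trans inter_subset_right
      · rw [extend_apply' _ _ _ hy]
    refine ⟨extend p v σ, fun y => (h y).trans (s1 y), forall_mem_insert.2 ⟨fun _ z hz => o2
      fun k _ => (hv k ?_).1, fun q hq h' z hz => s2 q hq h' z fun k => h _ (hz k)⟩⟩
    simpa only [hp.extend_apply] using hz k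

theorem sepr {ι : Type} [Finite ι] {r : ι → ℕ → Bool} (h : Injective r) :
    ∀ᶠ b in atTop, Injective fun k (i : Fin b) => r k i := by
  refine (eventually_all.2 fun k => eventually_all.2 fun l => ?_ :
    ∀ᶠ b in atTop, ∀ k l, (fun i : Fin b => r k i) = (fun i : Fin b => r l i) → k = l)
  by_cases e : k = l
  · exact Eventually.of_forall fun _ _ => e
  · obtain ⟨i, hi⟩ := ne_iff.1 (h.ne e)
    exact (eventually_gt_atTop i).mono fun b hb h => (hi (congrFun h ⟨i, hb⟩)).elim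

abbrev Act : Type := Σ k : ℕ, ((Fin k → Bool) × Fin k → ℕ)

open Classical in
noncomputable def ap (B : ℕ → Set X) (a : Act) (y : ℕ → Bool) (u : ℕ) : ℕ :=
  if h : u < a.1 then (if B (a.2 (fun i => y i, ⟨u, h⟩)) ⊆ B u then a.2 (fun i => y i, ⟨u, h⟩)
    else u) else u

def nx (b : ℕ) (a : Act) : ℕ := b + a.1 + ∑ p, a.2 p

theorem ap_sub (B : ℕ → Set X) (a : Act) (y : ℕ → Bool) (u : ℕ) : B (ap B a y u) ⊆ B u := by
  unfold ap
  split_ifs with h1 h2
  exacts [h2, Subset.rfl, Subset.rfl]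

theorem ap_lt (B : ℕ → Set X) (a : Act) (y : ℕ → Bool) {u b : ℕ} (h : u < b) :
    ap B a y u < nx b a := by
  unfold ap nx
  split_ifs with h1 h2
  · have := Finset.single_le_sum (f := a.2) (fun _ _ => Nat.zero_le _)
      (Finset.mem_univ ((fun i => y i, ⟨u, h1⟩) : (Fin a.1 → Bool) × Fin a.1))
    omega
  all_goals omega

theorem run (B : ℕ → Set X) {b : ℕ → ℕ} {a : ℕ → Act} (hb : ∀ n, b (n + 1) = nx (b n) (a n))
    (y : ℕ → Bool) (w : ℕ) (τ : ℕ → ℕ → ℕ) (t : ℕ → ℕ) (ht : ∀ n, ∀ u < b n, τ n u < b (t n))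
    (e : Set ℕ) (he : (e ∩ {n | w < b n}).Infinite)
    (hg : {n | ∀ m, n ≤ m → m ≤ t n → m ∉ e}.Infinite) (hn : ∀ n, n ≤ t n) :
    ∃ u : ℕ → ℕ, u 0 = w ∧ (∀ n, B (u (n + 1)) ⊆ B (u n) ∨ u (n + 1) = τ n (u n)) ∧
      (∃ᶠ n in atTop, u (n + 1) = τ n (u n)) ∧
      ∀ n ∈ e, w < b n → u n < b n ∧ u (n + 1) = ap B (a n) y (u n) := by
  classical
  have hm : Monotone b := monotone_nat_of_le_succ fun n => by rw [hb, nx]; omega
  obtain ⟨g, hg'⟩ : ∃ g : ℕ → Prop, ∀ n, g n ↔ ∀ m, n ≤ m → m ≤ t n → m ∉ e := ⟨_, fun _ => Iff.rfl⟩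
  let Φ : ℕ → ℕ → ℕ := fun n v => if n ∈ e ∧ w < b n then ap B (a n) y v else
    if g n ∧ v < b n then τ n v else v
  let u : ℕ → ℕ := fun n => Nat.rec w Φ n
  have hu : ∀ n, u (n + 1) = Φ n (u n) := fun _ => rfl
  simp only [Φ] at hu
  have inv : ∀ n m, n ≤ m → m ∈ e → w < b m → u n < b m := fun n => by
    induction n with
    | zero => exact fun _ _ _ h => h
    | succ n ih =>
      intro m h1 h2 h3
      rw [hu]
      split_ifs with h4 h5
      · exact (hb n ▸ ap_lt B _ y (ih n le_rfl h4.1 h4.2)).trans_le (hm h1)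
      · exact (ht n _ h5.2).trans_le (hm (not_lt.1 fun h => (hg' _).1 h5.1 m (by omega) h.le h2))
      · exact ih m (by omega) h2 h3
  refine ⟨u, rfl, fun n => ?_, ?_, fun n h1 h2 => ⟨inv n n le_rfl h1 h2, by
    rw [hu, if_pos ⟨h1, h2⟩]⟩⟩
  · by_cases h1 : n ∈ e ∧ w < b n
    · exact Or.inl (by rw [hu, if_pos h1]; exact ap_sub _ _ _ _)
    rcases Classical.em (g n ∧ u n < b n) with h2 | h2
    · exact Or.inr (by rw [hu, if_neg h1, if_pos h2])
    · exact Or.inl (by rw [hu, if_neg h1, if_neg h2])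
  · by_contra h
    obtain ⟨N, hN⟩ := eventually_atTop.1 (not_frequently.1 h)
    obtain ⟨k, k1, k2⟩ := he.exists_gt N
    have h1 : ∀ n, k ≤ n → u n < b n := fun n hn => by
      induction n, hn using Nat.le_induction with
      | base => exact inv k k le_rfl k1.1 k1.2
      | succ n hn ih =>
        have := hN n (by omega)
        rw [hu] at this ⊢
        split_ifs at this ⊢
        exacts [hb n ▸ ap_lt B _ y ih, (this rfl).elim, ih.trans_le (hm n.le_succ)]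
    obtain ⟨n, n1, n2⟩ := hg.exists_gt k
    refine hN n (by omega) ?_
    rw [hu, if_neg fun h => n1 n le_rfl (hn n) h.1, if_pos ⟨(hg' _).2 n1, h1 n n2.le⟩]

theorem main [MetricSpace X] [CompleteSpace X] [SecondCountableTopology X] [Nonempty X] {J : Type}
    [Infinite J] (h : Sm J) (n : J → ℕ) (W : ∀ j, Set (Fin (n j) → X)) (w1 : ∀ j, IsOpen (W j))
    (w2 : ∀ j, Dense (W j)) : ∃ A : Set X, (∀ U : Set X, IsOpen U → U.Nonempty →
      ¬ IsMeagre (A ∩ U)) ∧ ∀ j x, Injective x → (∀ k, x k ∈ A) → x ∈ W j := by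
  classical
  obtain ⟨𝔅, c1, c2, c3⟩ := TopologicalSpace.exists_countable_basis X
  obtain ⟨B, rfl⟩ := c1.exists_eq_range ((c3.exists_subset_of_mem_open
    (mem_univ (Classical.arbitrary X)) isOpen_univ).imp fun _ h => h.1)
  have b1 : ∀ u, IsOpen (B u) := fun u => c3.isOpen ⟨u, rfl⟩
  have b2 : ∀ u, (B u).Nonempty := fun u => nonempty_iff_ne_empty.2 fun h => c2 ⟨u, h⟩
  have b3 : ∀ O, IsOpen O → O.Nonempty → ∃ u, B u ⊆ O := fun O o1 ⟨x, hx⟩ => by
    obtain ⟨_, ⟨u, rfl⟩, -, h⟩ := c3.exists_subset_of_mem_open hx o1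
    exact ⟨u, h⟩
  choose σ s1 s2 using fun j b => good b1 b2 b3 (Y := (Fin b → Bool) × Fin b) (fun p => p.2)
    (w1 j) (w2 j)
  obtain ⟨b, a, b0, hb, ha⟩ := coh h (⟨0, fun _ => 0⟩ : Act) 1 nx (fun _ => by simp [nx])
    fun j b => ⟨b, σ j b⟩
  have hm : Monotone b := monotone_nat_of_le_succ fun n => by rw [hb, nx]; omega
  have hT := unb hm ((ha (Classical.arbitrary J)).mono fun n hn => by
    have := hm n.zero_le
    rw [hb, hn, nx]
    simp only
    omega)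
  obtain ⟨e, e1, e2⟩ := fam h (fun j => {m | a m = ⟨b m, σ j (b m)⟩})
    fun j => Nat.frequently_atTop_iff_infinite.1 (ha j)
  obtain ⟨ρ⟩ : #(ℕ × (ℕ → ℕ → ℕ)) ≤ #(ℕ → Bool) := by simp
  have ht : ∀ (τ : ℕ → ℕ → ℕ) m, ∃ N, m ≤ N ∧ ∀ u < b m, τ m u < b N := fun τ m =>
    ((eventually_ge_atTop m).and ((finite_Iio (b m)).eventually_all.2
      fun u _ => hT.eventually_gt_atTop (τ m u))).exists
  choose t t1 t2 using ht
  choose u u0 u1 u2 u3 using fun κ : ℕ × (ℕ → ℕ → ℕ) => run B hb (ρ κ) κ.1 κ.2 (t κ.2) (t2 κ.2)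
    (e (t κ.2)) (Nat.frequently_atTop_iff_infinite.1 (((Nat.frequently_atTop_iff_infinite.2
      (e1 (Classical.arbitrary J) {t κ.2})).and_eventually (hT.eventually_gt_atTop κ.1)).mono
        fun m hm => ⟨hm.1.2 _ (Finset.mem_singleton_self _), hm.2⟩)) (e2 _) (t1 κ.2)
  have hx : ∀ κ : ℕ × (ℕ → ℕ → ℕ), ∃ x, (∀ m v, closure (B (κ.2 m v)) ⊆ B v ∧
      ∃ c, B (κ.2 m v) ⊆ ball c (1 / ((m : ℝ) + 1))) → ∀ m, x ∈ B (u κ m) := fun κ => by
    by_cases hv : ∀ m v, closure (B (κ.2 m v)) ⊆ B v ∧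
      ∃ c, B (κ.2 m v) ⊆ ball c (1 / ((m : ℝ) + 1))
    · exact (lim (fun m => B (u κ m)) (fun _ => b2 _) (fun m => (u1 κ m).elim id fun h => by
        rw [h]; exact subset_closure.trans (hv _ _).1) ((u2 κ).mono fun m h => by
          rw [h]; exact hv _ _)).imp fun x h _ => h
    · exact ⟨Classical.arbitrary X, fun h => (hv h).elim⟩
  choose x hx using hx
  refine ⟨x '' {κ | ∀ m v, closure (B (κ.2 m v)) ⊆ B v ∧
    ∃ c, B (κ.2 m v) ⊆ ball c (1 / ((m : ℝ) + 1))}, fun U o1 o2 hM => ?_, fun j z z1 z2 => ?_⟩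
  · obtain ⟨S, h1, h2, h3, h4⟩ := mem_residual_iff.1 hM
    obtain ⟨G, hG⟩ := (h3.insert Set.univ).exists_eq_range (insert_nonempty _ _)
    have g1 : ∀ m, IsOpen (G m) ∧ Dense (G m) := fun m => (hG.ge ⟨m, rfl⟩).elim
      (fun h => h ▸ ⟨isOpen_univ, dense_univ⟩) fun h => ⟨h1 _ h, h2 _ h⟩
    have hτ : ∀ (m : ℕ) v, ∃ v', (closure (B v') ⊆ B v ∧
        ∃ c, B v' ⊆ ball c (1 / ((m : ℝ) + 1))) ∧ ∀ i ≤ m, B v' ⊆ G i := fun m v => by
      obtain ⟨c, d1, d2⟩ := (dense_biInter_of_isOpen (fun i _ => (g1 i).1) (finite_Iic m).countable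
        fun i _ => (g1 i).2).inter_open_nonempty _ (b1 v) (b2 v)
      obtain ⟨r, r1, r2⟩ := nhds_basis_closedBall.mem_iff.1 (((b1 v).inter
        ((finite_Iic m).isOpen_biInter fun i _ => (g1 i).1)).mem_nhds ⟨d1, d2⟩)
      obtain ⟨v', hv⟩ := b3 _ (isOpen_ball.inter isOpen_ball) ⟨c, mem_ball_self r1,
        mem_ball_self (Nat.one_div_pos_of_nat (n := m))⟩
      have := (closure_minimal ((hv.trans inter_subset_left).trans ball_subset_closedBall)
        isClosed_closedBall).trans r2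
      exact ⟨v', ⟨this.trans inter_subset_left, c, hv.trans inter_subset_right⟩, fun i hi y hy =>
        mem_iInter₂.1 (this (subset_closure hy)).2 i hi⟩
    choose τ τ1 τ2 using hτ
    obtain ⟨w, hw⟩ := b3 U o1 o2
    refine h4 (fun s hs => ?_) ⟨⟨(w, τ), τ1, rfl⟩, hw (by simpa only [u0] using hx (w, τ) τ1 0)⟩
    obtain ⟨i, rfl⟩ := hG.le (mem_insert_of_mem _ hs)
    obtain ⟨m, m1, m2⟩ := frequently_atTop.1 (u2 (w, τ)) i
    exact τ2 m _ i m1 (m2 ▸ hx (w, τ) τ1 (m + 1))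
  · choose κ k1 k2 using z2
    have k3 : Injective fun k => ρ (κ k) := fun k l h => z1 (by rw [← k2, ← k2, ρ.injective h])
    obtain ⟨m, ⟨m1, m2⟩, m3, m4⟩ := ((Nat.frequently_atTop_iff_infinite.2 (e1 j
      (Finset.univ.image fun k => t (κ k).2))).and_eventually ((hT.eventually (sepr k3)).and
        (eventually_all.2 fun k => hT.eventually_gt_atTop (κ k).1))).exists
    have k4 := fun k => u3 (κ k) m (m2 _ (Finset.mem_image_of_mem _ (Finset.mem_univ k))) (m4 k)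
    refine s2 j (b m) (fun k => (fun i => ρ (κ k) i, ⟨u (κ k) m, (k4 k).1⟩))
      (fun k l h => m3 (congrArg Prod.fst h)) z fun k => ?_
    have := hx (κ k) (k1 k) (m + 1)
    rw [(k4 k).2, k2, show a m = _ from m1, ap, dif_pos (k4 k).1, if_pos (s1 _ _ _)] at this
    exact this

theorem fin (X : Type) [TopologicalSpace X] [PolishSpace X] (ι : Type) (n : ι → ℕ)
    (R : ∀ i, Set (Fin (n i) → X)) (hR : ∀ i, IsMeagre (R i)) (h : Sm ι) : ∃ A : Set X,
      (∀ U : Set X, IsOpen U → U.Nonempty → ¬ IsMeagre (A ∩ U)) ∧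
      ∀ (i : ι) (x : Fin (n i) → X), Injective x → (∀ k, x k ∈ A) → x ∉ R i := by
  cases isEmpty_or_nonempty X
  · refine ⟨∅, fun U _ ⟨x, _⟩ => isEmptyElim x, fun i x _ _ hx => ?_⟩
    exact not_isMeagre_of_isOpen (isOpen_discrete _) ⟨x, hx⟩ (hR i)
  letI := TopologicalSpace.upgradeIsCompletelyMetrizable X
  have h1 : ∀ i, ∃ G : ℕ → Set (Fin (n i) → X), (∀ m, IsOpen (G m) ∧ Dense (G m)) ∧
      ∀ x, (∀ m, x ∈ G m) → x ∉ R i := fun i => by
    obtain ⟨S, h1, h2, h3, h4⟩ := mem_residual_iff.1 (hR i)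
    obtain ⟨G, hG⟩ := (h3.insert Set.univ).exists_eq_range (insert_nonempty _ _)
    refine ⟨G, fun m => (hG.ge ⟨m, rfl⟩).elim (fun h => h ▸ ⟨isOpen_univ, dense_univ⟩)
      fun h => ⟨h1 _ h, h2 _ h⟩, fun x hx => h4 fun s hs => ?_⟩
    obtain ⟨i, rfl⟩ := hG.le (mem_insert_of_mem _ hs)
    exact hx i
  choose G g1 g2 using h1
  obtain ⟨A, a1, a2⟩ := main (X := X) (J := ℕ ⊕ ι × ℕ) (fun M hM e => h
    (fun i => (⋃ m, M (Sum.inl m)) ∪ ⋃ m, M (Sum.inr (i, m))) (fun i => (isMeagre_iUnion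
      fun _ => hM _).union (isMeagre_iUnion fun _ => hM _)) (by
        cases isEmpty_or_nonempty ι
        · exact (not_isMeagre_of_isOpen isOpen_univ univ_nonempty (e ▸ isMeagre_iUnion hM)).elim
        refine eq_univ_of_forall fun y => ?_
        obtain ⟨m | ⟨i, m⟩, hm⟩ := mem_iUnion.1 (e.ge (mem_univ y))
        · exact mem_iUnion.2 ⟨Classical.arbitrary ι, Or.inl (mem_iUnion.2 ⟨m, hm⟩)⟩
        · exact mem_iUnion.2 ⟨i, Or.inr (mem_iUnion.2 ⟨m, hm⟩)⟩))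
    (Sum.elim (fun _ => 0) fun p => n p.1)
    (fun j => match j with | Sum.inl _ => Set.univ | Sum.inr p => G p.1 p.2)
    (fun j => match j with | Sum.inl _ => isOpen_univ | Sum.inr p => (g1 p.1 p.2).1)
    (fun j => match j with | Sum.inl _ => dense_univ | Sum.inr p => (g1 p.1 p.2).2)
  exact ⟨A, a1, fun i x x1 x2 => g2 i x fun m => a2 (Sum.inr (i, m)) x x1 x2⟩

end Pool.Agent.H.MP_20ee74_lc
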